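import Mathlib
import Pool.Agent.H55R3.GCH.Two
import Pool.Agent.H55R3.GCH.TaskER
import Pool.Agent.H55R3.GCH.TaskCanon
import Pool.Agent.H55R3.GCH.TaskLex

/-!
# The converse of the stepping-up lemma under GCH
-/

set_option autoImplicit false

open Cardinal Set

universe u

namespace Pool.Agent.Results.MP_2e9b9b_lc.SteppingUpGCH

/-- The partition relation `κ → (η k; k < γ)^m` with ordinals `η k`: for every colouring `f` of the
`m`-element subsets of `κ` with `γ` colours there are a colour `k` and a set `H ⊆ κ` of order type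
`η k` all of whose `m`-element subsets have colour `k`. -/
def ArrowOrd (κ γ : Cardinal.{u}) (η : γ.ord.ToType → Ordinal.{u}) (m : ℕ) : Prop :=
  ∀ f : {s : Finset κ.ord.ToType // s.card = m} → γ.ord.ToType,
    ∃ (k : γ.ord.ToType) (H : Set κ.ord.ToType), Ordinal.type (fun x y : H => x < y) = η k ∧
      ∀ s : {s : Finset κ.ord.ToType // s.card = m}, (↑s.1 : Set κ.ord.ToType) ⊆ H → f s = k

/-- The cardinal form of the partition relation: the set `H` is only required to have cardinality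
`lam k`. -/
def Arrow (κ γ : Cardinal.{u}) (lam : γ.ord.ToType → Cardinal.{u}) (m : ℕ) : Prop :=
  ∀ f : {s : Finset κ.ord.ToType // s.card = m} → γ.ord.ToType,
    ∃ (k : γ.ord.ToType) (H : Set κ.ord.ToType), #H = lam k ∧
      ∀ s : {s : Finset κ.ord.ToType // s.card = m}, (↑s.1 : Set κ.ord.ToType) ⊆ H → f s = k

/-- The sequences not covered by the cardinal form for `n = 2`: `κ` is singular, its cofinality is
the successor of a singular cardinal `ρ`, the number `γ` of colours satisfies `cf ρ ≤ γ < ρ`,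
exactly one entry is `κ`, and all the other entries are at most `cf ρ` and are not infinite regular
cardinals. -/
def Exceptional (κ γ : Cardinal.{u}) (lam : γ.ord.ToType → Cardinal.{u}) : Prop :=
  κ.ord.cof < κ ∧ ∃ ρ : Cardinal.{u}, ℵ₀ ≤ ρ ∧ ρ.ord.cof < ρ ∧ κ.ord.cof = Order.succ ρ ∧
    ρ.ord.cof ≤ γ ∧ γ < ρ ∧ ∃ k₀ : γ.ord.ToType, lam k₀ = κ ∧
      ∀ k, k ≠ k₀ → lam k ≤ ρ.ord.cof ∧ ¬ (lam k).IsRegular

open Pool.Agent.H330 (NA)

/-- from a failing arrow to a colouring -/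
lemma exists_NA {κ γ : Cardinal.{u}} (hγ : γ ≠ 0) {lam : γ.ord.ToType → Cardinal.{u}} {r : ℕ}
    (h : ¬ ArrowOrd κ γ (fun k => (lam k).ord) r) :
    ∃ f : Finset κ.ord.ToType → γ.ord.ToType, NA lam r f := by
  classical
  unfold ArrowOrd at h
  push Not at h
  obtain ⟨f, hf⟩ := h
  have hne : Nonempty γ.ord.ToType := by
    rw [← Cardinal.mk_ne_zero_iff, Cardinal.mk_ord_toType]; exact hγ
  refine ⟨fun s => if hs : s.card = r then f ⟨s, hs⟩ else Classical.choice hne, ?_⟩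
  intro ν Y hY
  -- a subset of `Y` of order type `(lam ν).ord`
  obtain ⟨H, hHY, hH⟩ : ∃ H ⊆ Y, Ordinal.type (fun x y : H => x < y) = (lam ν).ord := by
    have h1 : (lam ν).ord ≤ Ordinal.type (fun x y : Y => x < y) := by
      rw [Cardinal.ord_le, Ordinal.card_type, hY]
    rw [← Ordinal.type_toType (lam ν).ord] at h1
    obtain ⟨e⟩ := Ordinal.type_le_iff.1 h1
    refine ⟨range (fun i => (e i : κ.ord.ToType)), ?_, ?_⟩
    · rintro _ ⟨i, rfl⟩
      exact (e i).2
    · refine Eq.trans (Ordinal.type_eq.2 ⟨RelIso.symm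
        ⟨Equiv.ofInjective (fun i => (e i : κ.ord.ToType))
          (fun i j hij => e.injective (Subtype.ext hij)), ?_⟩⟩) (Ordinal.type_toType (lam ν).ord)
      intro i j
      exact e.map_rel_iff
  obtain ⟨s, hs1, hs2⟩ := hf ν H hH
  refine ⟨s.1, s.2, hs1.trans hHY, ?_⟩
  simpa only [dif_pos s.2] using hs2

/-- from a colouring to a failing arrow -/
lemma not_arrow {κ γ : Cardinal.{u}} {lam : γ.ord.ToType → Cardinal.{u}} {r : ℕ}
    (h : ∃ f : Finset κ.ord.ToType → γ.ord.ToType, NA lam r f) : ¬ Arrow κ γ lam r := by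
  rintro hA
  obtain ⟨f, hf⟩ := h
  obtain ⟨ν, H, hH, hhom⟩ := hA (fun s => f s.1)
  obtain ⟨s, h1, h2, h3⟩ := hf ν H hH
  exact h3 (hhom ⟨s, h1⟩ h2)

/-- **The converse of the stepping-up lemma under GCH.** Let `κ` be an infinite cardinal, `n ≥ 2`,
`2 ≤ γ < κ`, and let `η k` (`k < γ`) be cardinals with `n < η k ≤ κ` and `κ ↛ (η k; k < γ)^n`.
Assume GCH. Unless `n = 2` and the sequence is `Exceptional`, one has
`2^κ ↛ (η k + 1; k < γ)^{n+1}` in the cardinal form: `η k + 1` is the cardinal sum (so that the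
entry is `η k` itself when `η k` is infinite) and the homogeneous sets are only required to have the
given cardinality. (A set of order type `η k ∔ 1` has cardinality `η k + 1`, so this form implies
the one with order types.) -/
theorem result (gch : ∀ c : Cardinal.{u}, ℵ₀ ≤ c → (2 : Cardinal.{u}) ^ c = Order.succ c)
    (κ γ : Cardinal.{u}) (n : ℕ) (hκ : ℵ₀ ≤ κ) (hn : 2 ≤ n) (hγ : 2 ≤ γ) (hγκ : γ < κ)
    (η : γ.ord.ToType → Cardinal.{u}) (hη : ∀ k, (n : Cardinal.{u}) < η k ∧ η k ≤ κ)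
    (hexc : n = 2 → ¬ Exceptional κ γ η)
    (h : ¬ ArrowOrd κ γ (fun k => (η k).ord) n) :
    ¬ Arrow (2 ^ κ) γ (fun k => η k + 1) (n + 1) := by
  have hγ0 : γ ≠ 0 := fun h0 => by
    rw [h0] at hγ
    exact absurd hγ (not_le.2 (by norm_num))
  obtain ⟨f, hf⟩ := exists_NA hγ0 h
  refine not_arrow ?_
  rcases (show n = 2 ∨ n = 3 ∨ 4 ≤ n by omega) with hn2 | hn3 | hn4
  · subst hn2
    refine Pool.Agent.H55R3.GCH.main_two_gch gch Pool.Agent.H55R3.GCH.taskER
      Pool.Agent.H55R3.GCH.taskCanon Pool.Agent.H55R3.GCH.taskLex hκ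
      (by rw [Cardinal.mk_ord_toType]; exact hγκ)
      (fun ν => ⟨by exact_mod_cast (hη ν).1, (hη ν).2⟩) hf ?_
    rintro ⟨ρ, h1, h2, h3, h4, h5, h6, c0, h7, h8⟩
    rw [Cardinal.mk_ord_toType] at h5 h6
    exact hexc rfl ⟨h4, ρ, h1, h2, h3, h5, h6, c0, h7, h8⟩
  · subst hn3
    exact Pool.Agent.H55R3.GCH.main_three_gch gch hκ
      (fun ν => ⟨by exact_mod_cast (hη ν).1.le, (hη ν).2⟩) hf
  · exact Pool.Agent.H330.main_ge4 hκ hn4 (fun ν => ⟨(hη ν).1.le, (hη ν).2⟩) hf

end Pool.Agent.Results.MP_2e9b9b_lc.SteppingUpGCH
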